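import Pool.Agent.Y602.ST.Comp

set_option autoImplicit false

namespace Pool.Agent.Results.MP_bced1d_lc.EveryExtensionMaximal

open Pool.Agent.H715R3.Sof Pool.Agent.Y602.ST

/-- There are a finitely generated recursively presented group `G` and a nonempty sofic
`G`-subshift `Y` with a computable point (so `m(Y)` is the least Medvedev degree) such that every
subshift of finite type `X` with a continuous equivariant map into `Y`, in particular every
extension of `Y` of finite type, has `m(X)` above the Medvedev degree of every nonempty `Π⁰₁`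
class of binary sequences; `X` has no computable point, and `m(X) ≤ m(Y)` fails. -/
theorem result : ∃ (G : Type) (_ : Group G) (r : ℕ) (gens : Fin r → G),
    RecursivelyPresented gens ∧
    ∃ (l : ℕ) (Y : Set (G → Fin l)), Y.Nonempty ∧ IsSofic Y ∧
      (∃ y ∈ pull gens Y, Computable y) ∧
      ∀ (k : ℕ) (X : Set (G → Fin k)) (φ : X → (G → Fin l)), IsSFT X → Continuous φ →
        (∀ (g : G) (x x' : X), x'.1 = translate g x.1 → φ x' = translate g (φ x)) →
        (∀ x, φ x ∈ Y) →
        (∀ P : Set (ℕ → ℕ), P.Nonempty → IsPi01Class P → MedvedevLe P (pull gens X)) ∧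
        (∀ x ∈ pull gens X, ¬ Computable x) ∧
          ¬ MedvedevLe (pull gens X) (pull gens Y) := by
  refine ⟨G2, inferInstance, 37, gens2, rp2, 2, YY, ⟨yy, yy_mem⟩, YY_sofic, yy_computable, ?_⟩
  intro k X φ hX _ heq hran
  have h0 := dnr_le hX heq hran
  have h1 : ∀ x ∈ pull gens2 X, ¬ Computable x := fun x hx => no_computable_above h0 hx
  refine ⟨fun P hne hP => medv_trans (le_dnr hP hne) h0, h1, ?_⟩
  rintro ⟨f, hf, hfm, hfr⟩
  obtain ⟨y, hy, hyc⟩ := yy_computable
  obtain ⟨x, hx, hxr⟩ := hfr y hy
  exact h1 x hx (computable_of_reduction hf hfm hyc hxr)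

end Pool.Agent.Results.MP_bced1d_lc.EveryExtensionMaximal
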